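import Pool.Agent.H83.EX.Defs

/-!
The exponent `θ*`: the eigenvector equations, two numerical bounds and existence.
-/

namespace Pool.Agent.H83.EX

/-- The six eigenvector equations. -/
def Eqs (θ : ℝ) (v : Fin 6 → ℝ) : Prop :=
  v 0 = (2 : ℝ) ^ (-θ) * (v 0 + v 3) / 2 ∧ v 1 = (5 : ℝ) ^ θ * v 0 ∧
    v 2 = (2 : ℝ) ^ (-θ) * (v 1 + v 4) / 2 ∧ v 3 = (3 : ℝ) ^ (-θ) * (v 1 + v 3 + v 5) / 3 ∧
    v 4 = (2 : ℝ) ^ (-θ) * (v 2 + v 5) / 2 ∧ v 5 = (5 : ℝ) ^ θ * v 2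

lemma eqs_of {θ : ℝ} {v : Fin 6 → ℝ} (h : (F θ * P).mulVec v = v) : Eqs θ v := by
  have e : ∀ i, v i = ∑ j, (F θ * P) i j * v j := by
    intro i
    have := congrFun h i
    rw [Matrix.mulVec, dotProduct] at this
    exact this.symm
  have e0 := e 0
  have e1 := e 1
  have e2 := e 2
  have e3 := e 3
  have e4 := e 4
  have e5 := e 5
  simp only [F, Matrix.diagonal_mul] at e0 e1 e2 e3 e4 e5
  simp [P, Fin.sum_univ_succ] at e0 e1 e2 e3 e4 e5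
  refine ⟨?_, ?_, ?_, ?_, ?_, ?_⟩
  · linarith
  · exact e1
  · linarith
  · linarith
  · linarith
  · exact e5

lemma of_eqs {θ : ℝ} {v : Fin 6 → ℝ} (h : Eqs θ v) : (F θ * P).mulVec v = v := by
  obtain ⟨h0, h1, h2, h3, h4, h5⟩ := h
  funext i
  rw [Matrix.mulVec, dotProduct]
  simp only [F, Matrix.diagonal_mul]
  fin_cases i
  · simp [P, Fin.sum_univ_succ]
    linarith
  · simp [P, Fin.sum_univ_succ]
    linarith
  · simp [P, Fin.sum_univ_succ]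
    linarith
  · simp [P, Fin.sum_univ_succ]
    linarith
  · simp [P, Fin.sum_univ_succ]
    linarith
  · simp [P, Fin.sum_univ_succ]
    linarith

lemma bern {m x s : ℝ} (hm : 0 < m) (hx : 0 ≤ x) (hs0 : 0 ≤ s) (hs1 : s ≤ 1) :
    x ^ s ≤ m ^ s * (1 + s * (x / m - 1)) := by
  have h1 : x = m * (1 + (x / m - 1)) := by
    field_simp
    ring
  have h2 : -1 ≤ x / m - 1 := by
    have : 0 ≤ x / m := by positivity
    linarith
  have h3 := rpow_one_add_le_one_add_mul_self h2 hs0 hs1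
  calc x ^ s = (m * (1 + (x / m - 1))) ^ s := by rw [← h1]
    _ = m ^ s * (1 + (x / m - 1)) ^ s := Real.mul_rpow hm.le (by linarith)
    _ ≤ m ^ s * (1 + s * (x / m - 1)) :=
        mul_le_mul_of_nonneg_left h3 (Real.rpow_nonneg hm.le s)

lemma jen2 {x y s : ℝ} (hx : 0 < x) (hy : 0 < y) (hs0 : 0 ≤ s) (hs1 : s ≤ 1) :
    (x ^ s + y ^ s) / 2 ≤ ((x + y) / 2) ^ s := by
  have hm : 0 < (x + y) / 2 := by positivity
  have h1 := bern hm hx.le hs0 hs1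
  have h2 := bern hm hy.le hs0 hs1
  have h3 : ((x + y) / 2) ^ s * (1 + s * (x / ((x + y) / 2) - 1)) +
      ((x + y) / 2) ^ s * (1 + s * (y / ((x + y) / 2) - 1)) = 2 * ((x + y) / 2) ^ s := by
    have h4 : x / ((x + y) / 2) + y / ((x + y) / 2) = 2 := by
      field_simp
    have h5 : ((x + y) / 2) ^ s * (1 + s * (x / ((x + y) / 2) - 1)) +
      ((x + y) / 2) ^ s * (1 + s * (y / ((x + y) / 2) - 1)) =
      ((x + y) / 2) ^ s * (2 + s * ((x / ((x + y) / 2) + y / ((x + y) / 2)) - 2)) := by ring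
    rw [h5, h4]
    ring
  linarith

lemma jen3 {x y z s : ℝ} (hx : 0 < x) (hy : 0 < y) (hz : 0 < z) (hs0 : 0 ≤ s) (hs1 : s ≤ 1) :
    (x ^ s + y ^ s + z ^ s) / 3 ≤ ((x + y + z) / 3) ^ s := by
  have hm : 0 < (x + y + z) / 3 := by positivity
  have h1 := bern hm hx.le hs0 hs1
  have h2 := bern hm hy.le hs0 hs1
  have h2' := bern hm hz.le hs0 hs1
  set m := (x + y + z) / 3 with hmdef
  have h4 : x / m + y / m + z / m = 3 := by
    rw [← add_div, ← add_div, div_eq_iff hm.ne', hmdef]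
    ring
  have h5 : m ^ s * (1 + s * (x / m - 1)) + m ^ s * (1 + s * (y / m - 1)) +
      m ^ s * (1 + s * (z / m - 1)) = m ^ s * (3 + s * ((x / m + y / m + z / m) - 3)) := by ring
  rw [h4] at h5
  have h6 : m ^ s * (3 + s * (3 - 3)) = 3 * m ^ s := by ring
  rw [h6] at h5
  linarith

/-- Hölder for two successors. -/
lemma hol2 {p x y s r : ℝ} (hp : 0 < p) (hx : 0 < x) (hy : 0 < y) (hs0 : 0 ≤ s) (hs1 : s ≤ 1)
    (hr : p * (x + y) / 2 ≤ r) : p ^ s * (x ^ s + y ^ s) / 2 ≤ r ^ s := by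
  have h1 := jen2 hx hy hs0 hs1
  have h2 : 0 ≤ p ^ s := Real.rpow_nonneg hp.le s
  calc p ^ s * (x ^ s + y ^ s) / 2 = p ^ s * ((x ^ s + y ^ s) / 2) := by ring
    _ ≤ p ^ s * ((x + y) / 2) ^ s := mul_le_mul_of_nonneg_left h1 h2
    _ = (p * ((x + y) / 2)) ^ s := (Real.mul_rpow hp.le (by positivity)).symm
    _ ≤ r ^ s := by
        refine Real.rpow_le_rpow (by positivity) ?_ hs0
        linarith

lemma hol3 {p x y z s r : ℝ} (hp : 0 < p) (hx : 0 < x) (hy : 0 < y) (hz : 0 < z) (hs0 : 0 ≤ s)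
    (hs1 : s ≤ 1) (hr : p * (x + y + z) / 3 ≤ r) :
    p ^ s * (x ^ s + y ^ s + z ^ s) / 3 ≤ r ^ s := by
  have h1 := jen3 hx hy hz hs0 hs1
  have h2 : 0 ≤ p ^ s := Real.rpow_nonneg hp.le s
  calc p ^ s * (x ^ s + y ^ s + z ^ s) / 3 = p ^ s * ((x ^ s + y ^ s + z ^ s) / 3) := by ring
    _ ≤ p ^ s * ((x + y + z) / 3) ^ s := mul_le_mul_of_nonneg_left h1 h2
    _ = (p * ((x + y + z) / 3)) ^ s := (Real.mul_rpow hp.le (by positivity)).symm
    _ ≤ r ^ s := by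
        refine Real.rpow_le_rpow (by positivity) ?_ hs0
        linarith

lemma rpow_le_of {b y e : ℝ} (hb : 0 < b) (hy : 0 ≤ y) (p : ℤ) (q : ℕ) (hq : q ≠ 0)
    (he : e * q = p) (h : b ^ p ≤ y ^ q) : b ^ e ≤ y := by
  have h1 : (b ^ e) ^ q = b ^ p := by
    rw [← Real.rpow_natCast, ← Real.rpow_mul hb.le, he, Real.rpow_intCast]
  rw [← pow_le_pow_iff_left₀ (Real.rpow_nonneg hb.le e) hy hq, h1]
  exact h

lemma le_rpow_of {b y e : ℝ} (hb : 0 < b) (hy : 0 ≤ y) (p : ℤ) (q : ℕ) (hq : q ≠ 0)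
    (he : e * q = p) (h : y ^ q ≤ b ^ p) : y ≤ b ^ e := by
  have h1 : (b ^ e) ^ q = b ^ p := by
    rw [← Real.rpow_natCast, ← Real.rpow_mul hb.le, he, Real.rpow_intCast]
  rw [← pow_le_pow_iff_left₀ hy (Real.rpow_nonneg hb.le e) hq, h1]
  exact h

/-- `θ* < 52 / 23 = 2.2609`. -/
lemma theta_lt {θ : ℝ} {v : Fin 6 → ℝ} (hθ : 0 < θ) (hv : ∀ i, 0 < v i) (h : Eqs θ v) :
    θ < 52 / 23 := by
  by_contra hcon
  push Not at hcon
  obtain ⟨h0, h1, h2, h3, h4, h5⟩ := h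
  set s : ℝ := (52 / 23) / θ with hs
  have hs0 : 0 ≤ s := by positivity
  have hs1 : s ≤ 1 := by
    rw [hs, div_le_one hθ]
    exact hcon
  have hsθ : θ * s = 52 / 23 := by
    rw [hs]
    field_simp
  have p2 : ((2 : ℝ) ^ (-θ)) ^ s = (2 : ℝ) ^ (-(52 / 23) : ℝ) := by
    rw [← Real.rpow_mul (by norm_num)]
    congr 1
    rw [neg_mul, hsθ]
  have p3 : ((3 : ℝ) ^ (-θ)) ^ s = (3 : ℝ) ^ (-(52 / 23) : ℝ) := by
    rw [← Real.rpow_mul (by norm_num)]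
    congr 1
    rw [neg_mul, hsθ]
  have p5 : ((5 : ℝ) ^ θ) ^ s = (5 : ℝ) ^ (52 / 23 : ℝ) := by
    rw [← Real.rpow_mul (by norm_num), hsθ]
  have b2 : (208645 / 1000000 : ℝ) ≤ (2 : ℝ) ^ (-(52 / 23) : ℝ) :=
    le_rpow_of (by norm_num) (by norm_num) (-52) 23 (by norm_num) (by norm_num) (by norm_num)
  have b3 : (83423 / 1000000 : ℝ) ≤ (3 : ℝ) ^ (-(52 / 23) : ℝ) :=
    le_rpow_of (by norm_num) (by norm_num) (-52) 23 (by norm_num) (by norm_num) (by norm_num)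
  have b5 : (380432 / 10000 : ℝ) ≤ (5 : ℝ) ^ (52 / 23 : ℝ) :=
    le_rpow_of (by norm_num) (by norm_num) 52 23 (by norm_num) (by norm_num) (by norm_num)
  have w : ∀ i, 0 < v i ^ s := fun i => Real.rpow_pos_of_pos (hv i) s
  have g0 := hol2 (p := (2 : ℝ) ^ (-θ)) (by positivity) (hv 0) (hv 3) hs0 hs1 h0.ge
  have g2 := hol2 (p := (2 : ℝ) ^ (-θ)) (by positivity) (hv 1) (hv 4) hs0 hs1 h2.ge
  have g4 := hol2 (p := (2 : ℝ) ^ (-θ)) (by positivity) (hv 2) (hv 5) hs0 hs1 h4.ge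
  have g3 := hol3 (p := (3 : ℝ) ^ (-θ)) (by positivity) (hv 1) (hv 3) (hv 5) hs0 hs1 h3.ge
  have g1 : v 1 ^ s = (5 : ℝ) ^ (52 / 23 : ℝ) * v 0 ^ s := by
    rw [h1, Real.mul_rpow (by positivity) (hv 0).le, p5]
  have g5 : v 5 ^ s = (5 : ℝ) ^ (52 / 23 : ℝ) * v 2 ^ s := by
    rw [h5, Real.mul_rpow (by positivity) (hv 2).le, p5]
  rw [p2] at g0 g2 g4
  rw [p3] at g3
  have w0 := w 0
  have w1 := w 1
  have w2 := w 2
  have w3 := w 3
  have w4 := w 4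
  have w5 := w 5
  generalize v 0 ^ s = x0 at *
  generalize v 1 ^ s = x1 at *
  generalize v 2 ^ s = x2 at *
  generalize v 3 ^ s = x3 at *
  generalize v 4 ^ s = x4 at *
  generalize v 5 ^ s = x5 at *
  have k0 : 208645 / 1000000 * (x0 + x3) / 2 ≤ x0 := by
    have := mul_le_mul_of_nonneg_right b2 (add_pos w0 w3).le
    linarith
  have k2 : 208645 / 1000000 * (x1 + x4) / 2 ≤ x2 := by
    have := mul_le_mul_of_nonneg_right b2 (add_pos w1 w4).le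
    linarith
  have k4 : 208645 / 1000000 * (x2 + x5) / 2 ≤ x4 := by
    have := mul_le_mul_of_nonneg_right b2 (add_pos w2 w5).le
    linarith
  have k3 : 83423 / 1000000 * (x1 + x3 + x5) / 3 ≤ x3 := by
    have := mul_le_mul_of_nonneg_right b3 (add_pos (add_pos w1 w3) w5).le
    linarith
  have k1 : 380432 / 10000 * x0 ≤ x1 := by
    rw [g1]
    exact mul_le_mul_of_nonneg_right b5 w0.le
  have k5 : 380432 / 10000 * x2 ≤ x5 := by
    rw [g5]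
    exact mul_le_mul_of_nonneg_right b5 w2.le
  linarith

/-- `2 < θ*`. -/
lemma theta_gt {θ : ℝ} {v : Fin 6 → ℝ} (hθ : 0 < θ) (hv : ∀ i, 0 < v i) (h : Eqs θ v) :
    2 < θ := by
  by_contra hcon
  push Not at hcon
  obtain ⟨h0, h1, h2, h3, h4, h5⟩ := h
  set s : ℝ := θ / 2 with hs
  have hs0 : 0 < s := by positivity
  have hs1 : s ≤ 1 := by
    rw [hs]
    linarith
  have hsθ : 2 * s = θ := by
    rw [hs]
    ring
  have p2 : (1 / 4 : ℝ) ^ s = (2 : ℝ) ^ (-θ) := by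
    rw [← hsθ, Real.rpow_neg (by norm_num), Real.rpow_mul (by norm_num)]
    rw [← Real.inv_rpow (by positivity)]
    norm_num
  have p3 : (1 / 9 : ℝ) ^ s = (3 : ℝ) ^ (-θ) := by
    rw [← hsθ, Real.rpow_neg (by norm_num), Real.rpow_mul (by norm_num)]
    rw [← Real.inv_rpow (by positivity)]
    norm_num
  have p5 : (25 : ℝ) ^ s = (5 : ℝ) ^ θ := by
    rw [← hsθ, Real.rpow_mul (by norm_num)]
    norm_num
  have g0 : (2 : ℝ) ^ (-θ) * ((14803 / 100000 : ℝ) ^ s + (1 : ℝ) ^ s) / 2 <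
      (14803 / 100000 : ℝ) ^ s := by
    rw [← p2]
    refine lt_of_le_of_lt (hol2 (r := 14802 / 100000) (by norm_num) (by norm_num) (by norm_num)
      hs0.le hs1 (by norm_num)) ?_
    exact Real.rpow_lt_rpow (by norm_num) (by norm_num) hs0
  have g2 : (2 : ℝ) ^ (-θ) * ((370075 / 100000 : ℝ) ^ s + (28159 / 10000 : ℝ) ^ s) / 2 <
      (8401 / 10000 : ℝ) ^ s := by
    rw [← p2]
    refine lt_of_le_of_lt (hol2 (r := 8400 / 10000) (by norm_num) (by norm_num) (by norm_num)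
      hs0.le hs1 (by norm_num)) ?_
    exact Real.rpow_lt_rpow (by norm_num) (by norm_num) hs0
  have g4 : (2 : ℝ) ^ (-θ) * ((8401 / 10000 : ℝ) ^ s + (210025 / 10000 : ℝ) ^ s) / 2 <
      (28159 / 10000 : ℝ) ^ s := by
    rw [← p2]
    refine lt_of_le_of_lt (hol2 (r := 28158 / 10000) (by norm_num) (by norm_num) (by norm_num)
      hs0.le hs1 (by norm_num)) ?_
    exact Real.rpow_lt_rpow (by norm_num) (by norm_num) hs0
  have g3 : (3 : ℝ) ^ (-θ) * ((370075 / 100000 : ℝ) ^ s + (1 : ℝ) ^ s +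
      (210025 / 10000 : ℝ) ^ s) / 3 < (1 : ℝ) ^ s := by
    rw [← p3]
    refine lt_of_le_of_lt (hol3 (r := 999 / 1000) (by norm_num) (by norm_num) (by norm_num)
      (by norm_num) hs0.le hs1 (by norm_num)) ?_
    exact Real.rpow_lt_rpow (by norm_num) (by norm_num) hs0
  have g1 : (370075 / 100000 : ℝ) ^ s = (5 : ℝ) ^ θ * (14803 / 100000 : ℝ) ^ s := by
    rw [← p5, ← Real.mul_rpow (by norm_num) (by norm_num)]
    norm_num
  have g5 : (210025 / 10000 : ℝ) ^ s = (5 : ℝ) ^ θ * (8401 / 10000 : ℝ) ^ s := by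
    rw [← p5, ← Real.mul_rpow (by norm_num) (by norm_num)]
    norm_num
  have w0 : 0 < (14803 / 100000 : ℝ) ^ s := Real.rpow_pos_of_pos (by norm_num) s
  have w1 : 0 < (370075 / 100000 : ℝ) ^ s := Real.rpow_pos_of_pos (by norm_num) s
  have w2 : 0 < (8401 / 10000 : ℝ) ^ s := Real.rpow_pos_of_pos (by norm_num) s
  have w3 : 0 < (1 : ℝ) ^ s := Real.rpow_pos_of_pos (by norm_num) s
  have w4 : 0 < (28159 / 10000 : ℝ) ^ s := Real.rpow_pos_of_pos (by norm_num) s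
  have w5 : 0 < (210025 / 10000 : ℝ) ^ s := Real.rpow_pos_of_pos (by norm_num) s
  generalize (14803 / 100000 : ℝ) ^ s = x0 at *
  generalize (370075 / 100000 : ℝ) ^ s = x1 at *
  generalize (8401 / 10000 : ℝ) ^ s = x2 at *
  generalize (1 : ℝ) ^ s = x3 at *
  generalize (28159 / 10000 : ℝ) ^ s = x4 at *
  generalize (210025 / 10000 : ℝ) ^ s = x5 at *
  have a2 : 0 < (2 : ℝ) ^ (-θ) := by positivity
  have a3 : 0 < (3 : ℝ) ^ (-θ) := by positivity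
  have a5 : 0 < (5 : ℝ) ^ θ := by positivity
  set M := max (max (v 0 / x0) (v 2 / x2)) (max (v 3 / x3) (v 4 / x4)) with hM
  have M0 : v 0 ≤ M * x0 := by
    rw [← div_le_iff₀ w0]
    exact (le_max_left _ _).trans (le_max_left _ _)
  have M2 : v 2 ≤ M * x2 := by
    rw [← div_le_iff₀ w2]
    exact (le_max_right _ _).trans (le_max_left _ _)
  have M3 : v 3 ≤ M * x3 := by
    rw [← div_le_iff₀ w3]
    exact (le_max_left _ _).trans (le_max_right _ _)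
  have M4 : v 4 ≤ M * x4 := by
    rw [← div_le_iff₀ w4]
    exact (le_max_right _ _).trans (le_max_right _ _)
  have M1 : v 1 ≤ M * x1 := by
    rw [h1, g1]
    have := mul_le_mul_of_nonneg_left M0 a5.le
    linarith
  have M5 : v 5 ≤ M * x5 := by
    rw [h5, g5]
    have := mul_le_mul_of_nonneg_left M2 a5.le
    linarith
  have Mpos : 0 < M := by
    have h6 : 0 < v 0 / x0 := div_pos (hv 0) w0
    have h7 : v 0 / x0 ≤ M := (le_max_left _ _).trans (le_max_left _ _)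
    linarith
  have s0 : v 0 < M * x0 := by
    have e1 : (2 : ℝ) ^ (-θ) * (v 0 + v 3) ≤ (2 : ℝ) ^ (-θ) * (M * x0 + M * x3) :=
      mul_le_mul_of_nonneg_left (add_le_add M0 M3) a2.le
    have e2 := mul_lt_mul_of_pos_left g0 Mpos
    linarith
  have s2 : v 2 < M * x2 := by
    have e1 : (2 : ℝ) ^ (-θ) * (v 1 + v 4) ≤ (2 : ℝ) ^ (-θ) * (M * x1 + M * x4) :=
      mul_le_mul_of_nonneg_left (add_le_add M1 M4) a2.le
    have e2 := mul_lt_mul_of_pos_left g2 Mpos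
    linarith
  have s4 : v 4 < M * x4 := by
    have e1 : (2 : ℝ) ^ (-θ) * (v 2 + v 5) ≤ (2 : ℝ) ^ (-θ) * (M * x2 + M * x5) :=
      mul_le_mul_of_nonneg_left (add_le_add M2 M5) a2.le
    have e2 := mul_lt_mul_of_pos_left g4 Mpos
    linarith
  have s3 : v 3 < M * x3 := by
    have e1 : (3 : ℝ) ^ (-θ) * (v 1 + v 3 + v 5) ≤ (3 : ℝ) ^ (-θ) * (M * x1 + M * x3 + M * x5) :=
      mul_le_mul_of_nonneg_left (add_le_add (add_le_add M1 M3) M5) a3.le
    have e2 := mul_lt_mul_of_pos_left g3 Mpos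
    linarith
  have hlt : M < M := by
    conv_lhs => rw [hM]
    refine max_lt (max_lt ?_ ?_) (max_lt ?_ ?_)
    · rw [div_lt_iff₀ w0]
      exact s0
    · rw [div_lt_iff₀ w2]
      exact s2
    · rw [div_lt_iff₀ w3]
      exact s3
    · rw [div_lt_iff₀ w4]
      exact s4
  exact lt_irrefl _ hlt

/-- Solution of the eigenvector equations. -/
lemma eqs_solve {a b c : ℝ} (ha : 0 < a) (hc : 0 < c) (hD1 : 0 < 2 - a)
    (hD2 : 0 < 4 - a ^ 2 * (1 + c))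
    (hG : b * ((2 - a) * (4 - a ^ 2 * (1 + c)) + a * c * (4 - a ^ 2 * (1 + c)) +
      2 * (a * c) ^ 2) - 3 * (2 - a) * (4 - a ^ 2 * (1 + c)) = 0) :
    ∃ v : Fin 6 → ℝ, (∀ i, 0 < v i) ∧ v 0 = a * (v 0 + v 3) / 2 ∧ v 1 = c * v 0 ∧
      v 2 = a * (v 1 + v 4) / 2 ∧ v 3 = b * (v 1 + v 3 + v 5) / 3 ∧
      v 4 = a * (v 2 + v 5) / 2 ∧ v 5 = c * v 2 := by
  set D1 := 2 - a with hd1
  set D2 := 4 - a ^ 2 * (1 + c) with hd2
  have hD1' := hD1.ne'
  have hD2' := hD2.ne'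
  have p0 : 0 < a / D1 := div_pos ha hD1
  have p1 : 0 < c * (a / D1) := mul_pos hc p0
  have p2 : 0 < 2 * a * (c * (a / D1)) / D2 := by positivity
  have p4 : 0 < a / 2 * (1 + c) * (2 * a * (c * (a / D1)) / D2) := by positivity
  have p5 : 0 < c * (2 * a * (c * (a / D1)) / D2) := by positivity
  have q0 : a / D1 * D1 = a := div_mul_cancel₀ a hD1'
  have q2 : 2 * a * (c * (a / D1)) / D2 * D2 = 2 * a * (c * (a / D1)) :=
    div_mul_cancel₀ _ hD2'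
  refine ⟨![a / D1, c * (a / D1), 2 * a * (c * (a / D1)) / D2, 1,
    a / 2 * (1 + c) * (2 * a * (c * (a / D1)) / D2), c * (2 * a * (c * (a / D1)) / D2)],
    ?_, ?_, ?_, ?_, ?_, ?_, ?_⟩
  · intro i
    fin_cases i
    · exact p0
    · exact p1
    · exact p2
    · exact one_pos
    · exact p4
    · exact p5
  · change a / D1 = a * (a / D1 + 1) / 2
    rw [hd1] at q0 ⊢
    linarith
  · rfl
  · change 2 * a * (c * (a / D1)) / D2 = a * (c * (a / D1) +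
      a / 2 * (1 + c) * (2 * a * (c * (a / D1)) / D2)) / 2
    generalize 2 * a * (c * (a / D1)) / D2 = y at *
    rw [hd2] at q2
    linarith
  · change (1 : ℝ) = b * (c * (a / D1) + 1 + c * (2 * a * (c * (a / D1)) / D2)) / 3
    field_simp
    linarith
  · change a / 2 * (1 + c) * (2 * a * (c * (a / D1)) / D2) =
      a * (2 * a * (c * (a / D1)) / D2 + c * (2 * a * (c * (a / D1)) / D2)) / 2
    ring
  · rfl

/-- The number `θ*` exists. -/
lemma exists_thetaStar : ∃ θ, IsThetaStar θ := by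
  let G : ℝ → ℝ := fun θ => (3 : ℝ) ^ (-θ) * ((2 - (2 : ℝ) ^ (-θ)) *
    (4 - ((2 : ℝ) ^ (-θ)) ^ 2 * (1 + (5 : ℝ) ^ θ)) + (2 : ℝ) ^ (-θ) * (5 : ℝ) ^ θ *
    (4 - ((2 : ℝ) ^ (-θ)) ^ 2 * (1 + (5 : ℝ) ^ θ)) + 2 * ((2 : ℝ) ^ (-θ) * (5 : ℝ) ^ θ) ^ 2) -
    3 * (2 - (2 : ℝ) ^ (-θ)) * (4 - ((2 : ℝ) ^ (-θ)) ^ 2 * (1 + (5 : ℝ) ^ θ))
  have c2 : Continuous (fun θ : ℝ => (2 : ℝ) ^ (-θ)) :=
    (Real.continuous_const_rpow (by norm_num)).comp continuous_neg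
  have c3 : Continuous (fun θ : ℝ => (3 : ℝ) ^ (-θ)) :=
    (Real.continuous_const_rpow (by norm_num)).comp continuous_neg
  have c5 : Continuous (fun θ : ℝ => (5 : ℝ) ^ θ) :=
    Real.continuous_const_rpow (by norm_num)
  have cG : Continuous G := by
    simp only [G]
    fun_prop
  have v2 : (2 : ℝ) ^ (-2 : ℝ) = 1 / 4 := by
    rw [Real.rpow_neg (by norm_num)]
    norm_num
  have v3 : (3 : ℝ) ^ (-2 : ℝ) = 1 / 9 := by
    rw [Real.rpow_neg (by norm_num)]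
    norm_num
  have v5 : (5 : ℝ) ^ (2 : ℝ) = 25 := by norm_num
  have v2' : (2 : ℝ) ^ (-3 : ℝ) = 1 / 8 := by
    rw [Real.rpow_neg (by norm_num)]
    norm_num
  have v3' : (3 : ℝ) ^ (-3 : ℝ) = 1 / 27 := by
    rw [Real.rpow_neg (by norm_num)]
    norm_num
  have v5' : (5 : ℝ) ^ (3 : ℝ) = 125 := by norm_num
  have G2 : G 2 ≤ 0 := by
    simp only [G, v2, v3, v5]
    norm_num
  have G3 : 0 ≤ G 3 := by
    simp only [G, v2', v3', v5']
    norm_num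
  obtain ⟨θ, hθ, hG⟩ := intermediate_value_Icc (by norm_num : (2 : ℝ) ≤ 3) cG.continuousOn
    ⟨G2, G3⟩
  obtain ⟨hθ2, hθ3⟩ := hθ
  have hθ0 : 0 < θ := by linarith
  have a2 : 0 < (2 : ℝ) ^ (-θ) := by positivity
  have a3 : 0 < (3 : ℝ) ^ (-θ) := by positivity
  have a5 : 0 < (5 : ℝ) ^ θ := by positivity
  have b2 : (2 : ℝ) ^ (-θ) ≤ 1 / 4 := by
    rw [← v2]
    exact Real.rpow_le_rpow_of_exponent_le (by norm_num) (by linarith)
  have b25 : ((2 : ℝ) ^ (-θ)) ^ 2 * (5 : ℝ) ^ θ ≤ 2 := by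
    have e1 : ((2 : ℝ) ^ (-θ)) ^ 2 * (5 : ℝ) ^ θ = (5 / 4 : ℝ) ^ θ := by
      rw [Real.div_rpow (by norm_num) (by norm_num), Real.rpow_neg (by norm_num)]
      have : (4 : ℝ) ^ θ = ((2 : ℝ) ^ θ) ^ 2 := by
        rw [← Real.rpow_natCast, ← Real.rpow_mul (by norm_num), mul_comm θ, Real.rpow_mul
          (by norm_num)]
        norm_num
      rw [this]
      field_simp
    rw [e1]
    calc (5 / 4 : ℝ) ^ θ ≤ (5 / 4 : ℝ) ^ (3 : ℝ) :=
          Real.rpow_le_rpow_of_exponent_le (by norm_num) hθ3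
      _ ≤ 2 := by norm_num
  have hD1 : 0 < 2 - (2 : ℝ) ^ (-θ) := by linarith
  have hD2 : 0 < 4 - ((2 : ℝ) ^ (-θ)) ^ 2 * (1 + (5 : ℝ) ^ θ) := by
    have : ((2 : ℝ) ^ (-θ)) ^ 2 ≤ 1 := by nlinarith
    nlinarith
  simp only [G] at hG
  obtain ⟨v, hv, he⟩ := eqs_solve (b := (3 : ℝ) ^ (-θ)) a2 a5 hD1 hD2 hG
  exact ⟨θ, hθ0, v, hv, of_eqs he⟩

end Pool.Agent.H83.EX
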