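import Pool.Agent.H83.EX.Ind
import Pool.Agent.H83.EX.Eig

/-!
The constants of the comparison argument and the final count.
-/

namespace Pool.Agent.H83.EX

open Finset

/-- The supersolution for the error term. -/
noncomputable def uN : ℕ → ℝ
  | 0 => 14803 / 100000
  | 1 => 370075 / 100000
  | 2 => 8401 / 10000
  | 3 => 1
  | 4 => 28159 / 10000
  | 5 => 210025 / 10000
  | _ => 1

/-- The scaled eigenvector. -/
noncomputable def vN (κ : ℝ) (w : Fin 6 → ℝ) : ℕ → ℝ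
  | 0 => κ * w 0
  | 1 => κ * w 1
  | 2 => κ * w 2
  | 3 => κ * w 3
  | 4 => κ * w 4
  | 5 => κ * w 5
  | _ => 1

lemma two_pow_le : (2 : ℝ) ^ ((2 / 45 : ℝ) - 2) ≤ 10313 / 40000 :=
  rpow_le_of (by norm_num) (by norm_num) (-88) 45 (by norm_num) (by norm_num) (by norm_num)

lemma three_pow_le : (3 : ℝ) ^ ((2 / 45 : ℝ) - 2) ≤ 105005 / 900000 :=
  rpow_le_of (by norm_num) (by norm_num) (-88) 45 (by norm_num) (by norm_num) (by norm_num)

lemma good_of {θ : ℝ} {w : Fin 6 → ℝ} (hθ : 2 ≤ θ) (hw : ∀ i, 0 < w i) (h : Eqs θ w) :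
    ∃ κ : ℝ, 0 < κ ∧ Good θ 2 (2 / 45) 200000 (1 / 100000) (vN κ w) uN := by
  obtain ⟨h0, h1, h2, h3, h4, h5⟩ := h
  have w0 := hw 0
  have w1 := hw 1
  have w2 := hw 2
  have w3 := hw 3
  have w4 := hw 4
  have w5 := hw 5
  have c5 : 0 < (5 : ℝ) ^ θ := by positivity
  set S : ℝ := w 0 + w 1 + w 2 + w 3 + w 4 + w 5 with hS
  have hSpos : 0 < S := by
    rw [hS]
    linarith
  set κ : ℝ := 1 / ((5 : ℝ) ^ θ * S) with hκ
  have hκpos : 0 < κ := by positivity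
  have hκ1 : κ * S * (5 : ℝ) ^ θ = 1 := by
    rw [hκ]
    field_simp
  have hle : ∀ x : ℝ, x ≤ S → κ * x * (5 : ℝ) ^ θ ≤ 1 := by
    intro x hx
    rw [← hκ1]
    exact mul_le_mul_of_nonneg_right (mul_le_mul_of_nonneg_left hx hκpos.le) c5.le
  have t2 := two_pow_le
  have t3 := three_pow_le
  have e5 : (5 : ℝ) ^ (2 : ℝ) = 25 := by norm_num
  refine ⟨κ, hκpos, ?_⟩
  constructor
  · norm_num
  · exact hθ
  · norm_num
  · norm_num
  · norm_num
  · norm_num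
  · intro r hr
    interval_cases r <;> simp only [vN] <;> positivity
  · intro r hr
    interval_cases r <;> simp only [vN] <;> apply hle <;> linarith
  · intro r hr
    interval_cases r <;> simp only [uN] <;> norm_num
  · simp only [vN]
    calc κ * w 0 = κ * ((2 : ℝ) ^ (-θ) * (w 0 + w 3) / 2) := by rw [← h0]
      _ = _ := by ring
  · simp only [vN]
    rw [h1]
    ring
  · simp only [vN]
    calc κ * w 2 = κ * ((2 : ℝ) ^ (-θ) * (w 1 + w 4) / 2) := by rw [← h2]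
      _ = _ := by ring
  · simp only [vN]
    calc κ * w 3 = κ * ((3 : ℝ) ^ (-θ) * (w 1 + w 3 + w 5) / 3) := by rw [← h3]
      _ = _ := by ring
  · simp only [vN]
    calc κ * w 4 = κ * ((2 : ℝ) ^ (-θ) * (w 2 + w 5) / 2) := by rw [← h4]
      _ = _ := by ring
  · simp only [vN]
    rw [h5]
    ring
  · simp only [uN]
    nlinarith
  · simp only [uN]
    rw [e5]
    norm_num
  · simp only [uN]
    nlinarith
  · simp only [uN]
    nlinarith
  · simp only [uN]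
    nlinarith
  · simp only [uN]
    rw [e5]
    norm_num

lemma one_lt_t_one {ρ : ℝ} : (((1 : ℕ) : ℝ) ^ ρ : ℝ) < t 1 := by
  unfold t
  rw [lt_iSup_iff]
  refine ⟨1, ?_⟩
  have e : C^[1] 1 = 6 := by decide
  rw [e]
  rw [Nat.cast_one, Real.one_rpow]
  exact_mod_cast (by norm_num : (1 : ℝ) < 6)

lemma lt_t_of_big {n : ℕ} {N ρ : ℝ} (hn : 1 ≤ n) (hN : (n : ℝ) ≤ N) (hρ : 1 ≤ ρ)
    (h : Big (2 * N ^ (ρ - 1)) n) : (((n : ℝ) ^ ρ : ℝ) : EReal) < t n := by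
  obtain ⟨i, hi⟩ := h
  unfold t
  rw [lt_iSup_iff]
  refine ⟨i, ?_⟩
  have hn1 : (1 : ℝ) ≤ n := by exact_mod_cast hn
  have hn0 : (0 : ℝ) < n := by linarith
  have e1 : (n : ℝ) ^ ρ = (n : ℝ) ^ (ρ - 1) * n := by
    rw [← Real.rpow_add_one hn0.ne']
    congr 1
    ring
  have e2 : (n : ℝ) ^ (ρ - 1) ≤ N ^ (ρ - 1) :=
    Real.rpow_le_rpow hn0.le hN (by linarith)
  have e3 : 0 < N ^ (ρ - 1) := Real.rpow_pos_of_pos (by linarith) _
  have e4 : (n : ℝ) ^ ρ < (C^[i] n : ℝ) := by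
    rw [e1]
    nlinarith
  exact_mod_cast e4

open Classical in
lemma count_le (N : ℕ) {ρ : ℝ} (hρ : 1 ≤ ρ) :
    Pool.Agent.H83.EX.N 6 1 (2 * (N : ℝ) ^ (ρ - 1)) (N / 6) ≤
      ((Icc 1 N).filter (fun n : ℕ => (((n : ℝ) ^ ρ : ℝ) : EReal) < t n)).card := by
  unfold Pool.Agent.H83.EX.N
  refine Finset.card_le_card_of_injOn (fun s => 6 + 6 * 1 * s) ?_ ?_
  · intro s hs
    simp only [coe_filter, mem_range, Set.mem_ofPred_eq] at hs
    obtain ⟨hs1, hs2⟩ := hs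
    simp only [coe_filter, mem_Icc, Set.mem_ofPred_eq]
    have h1 : 1 ≤ 6 + 6 * 1 * s := by omega
    have h2 : 6 + 6 * 1 * s ≤ N := by omega
    exact ⟨⟨h1, h2⟩, lt_t_of_big h1 (by exact_mod_cast h2) hρ hs2⟩
  · intro a _ b _ hab
    simp only at hab
    omega

open Classical in
/-- The frequency of large excursions. -/
theorem frequency {θ : ℝ} (hθ : IsThetaStar θ) {ρ : ℝ} (hρ1 : 1 < ρ) (hρ2 : ρ ≤ 117 / 100) :
    ∃ c : ℝ, 0 < c ∧ ∀ N : ℕ, 1 ≤ N → c * (N : ℝ) ^ (1 - θ * (ρ - 1)) ≤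
      (((Icc 1 N).filter (fun n : ℕ => (((n : ℝ) ^ ρ : ℝ) : EReal) < t n)).card : ℝ) := by
  obtain ⟨hθ0, w, hw, hv⟩ := hθ
  have hE := eqs_of hv
  have hlt := theta_lt hθ0 hw hE
  have hgt := theta_gt hθ0 hw hE
  obtain ⟨κ, hκ, hG⟩ := good_of hgt.le hw hE
  set γ : ℝ := ρ - 1 with hγ
  have hγ0 : 0 < γ := by linarith
  have hγ1 : γ ≤ 17 / 100 := by linarith
  set v0 : ℝ := κ * w 0 with hv0
  have hv0pos : 0 < v0 := mul_pos hκ (hw 0)
  set δ : ℝ := 2 / 45 - (θ - 2) * γ with hδ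
  have hδ0 : 0 < δ := by
    have : (θ - 2) * γ ≤ (52 / 23 - 2) * (17 / 100) :=
      mul_le_mul (by linarith) hγ1 hγ0.le (by norm_num)
    have h2 : ((52 : ℝ) / 23 - 2) * (17 / 100) < 2 / 45 := by norm_num
    linarith
  set K : ℝ := v0 * (2 : ℝ) ^ (-θ) / 24 with hK
  have hK0 : 0 < K := by positivity
  have hexp : 0 < 1 - θ * γ := by nlinarith
  have hexp1 : 1 - θ * γ ≤ 1 := by nlinarith
  -- the error is eventually small
  have hev : ∀ᶠ N : ℕ in Filter.atTop, 200000 * (14803 / 100000) * (N : ℝ) ^ (-δ) < K := by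
    have h1 : Filter.Tendsto (fun N : ℕ => 200000 * (14803 / 100000) * (N : ℝ) ^ (-δ))
        Filter.atTop (nhds (200000 * (14803 / 100000) * 0)) :=
      ((tendsto_rpow_neg_atTop hδ0).comp tendsto_natCast_atTop_atTop).const_mul _
    rw [mul_zero] at h1
    exact h1.eventually (gt_mem_nhds hK0)
  obtain ⟨M, hM⟩ := Filter.eventually_atTop.mp hev
  set M' : ℕ := M + 6 with hM'
  have hM'pos : (0 : ℝ) < M' := by
    have : 0 < M' := by omega
    exact_mod_cast this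
  refine ⟨min K (1 / M'), lt_min hK0 (by positivity), ?_⟩
  intro N hN
  have hN1 : (1 : ℝ) ≤ N := by exact_mod_cast hN
  have hN0 : (0 : ℝ) < N := by linarith
  have hpow : 0 < (N : ℝ) ^ (1 - θ * γ) := Real.rpow_pos_of_pos hN0 _
  rcases lt_or_ge N M' with hlt' | hge
  · -- small N
    have h1 : (N : ℝ) ^ (1 - θ * γ) ≤ N := by
      calc (N : ℝ) ^ (1 - θ * γ) ≤ (N : ℝ) ^ (1 : ℝ) :=
            Real.rpow_le_rpow_of_exponent_le hN1 hexp1
        _ = N := Real.rpow_one _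
    have h2 : (N : ℝ) ≤ M' := by exact_mod_cast hlt'.le
    have h3 : min K (1 / M') * (N : ℝ) ^ (1 - θ * γ) ≤ 1 := by
      calc min K (1 / M') * (N : ℝ) ^ (1 - θ * γ) ≤ (1 / M') * M' :=
            mul_le_mul (min_le_right _ _) (h1.trans h2) hpow.le (by positivity)
        _ = 1 := by field_simp
    have h4 : 1 ≤ ((Icc 1 N).filter (fun n : ℕ => (((n : ℝ) ^ ρ : ℝ) : EReal) < t n)).card := by
      rw [Nat.one_le_iff_ne_zero, ← Nat.pos_iff_ne_zero, Finset.card_pos]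
      refine ⟨1, ?_⟩
      rw [mem_filter, mem_Icc]
      exact ⟨⟨le_refl _, hN⟩, one_lt_t_one⟩
    have h5 : (1 : ℝ) ≤ (((Icc 1 N).filter
        (fun n : ℕ => (((n : ℝ) ^ ρ : ℝ) : EReal) < t n)).card : ℝ) := by exact_mod_cast h4
    linarith
  · -- large N
    have hN6 : 6 ≤ N := by omega
    have hMN : M ≤ N := by omega
    have hsmall := hM N hMN
    have hcnt := count_le N hρ1.le
    have hL : (1 : ℝ) / 5 ≤ 2 * (N : ℝ) ^ γ := by
      have := Real.one_le_rpow hN1 hγ0.le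
      linarith
    have hmain := main hG (N / 6) 6 1 (2 * (N : ℝ) ^ γ) (by norm_num) (by norm_num) hL
    have e6 : 6 % 6 = 0 := by norm_num
    rw [e6] at hmain
    have ev : vN κ w 0 = v0 := rfl
    have eu : uN 0 = 14803 / 100000 := rfl
    rw [ev, eu] at hmain
    have hcr : ((Pool.Agent.H83.EX.N 6 1 (2 * (N : ℝ) ^ γ) (N / 6) : ℕ) : ℝ) ≤
        (((Icc 1 N).filter (fun n : ℕ => (((n : ℝ) ^ ρ : ℝ) : EReal) < t n)).card : ℝ) := by
      exact_mod_cast hcnt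
    refine le_trans ?_ (hmain.trans hcr)
    set T : ℝ := ((N / 6 : ℕ) : ℝ) with hT
    have hT1 : (N : ℝ) / 12 ≤ T := by
      rw [div_le_iff₀ (by norm_num), hT]
      have : N ≤ (N / 6) * 12 := by omega
      exact_mod_cast this
    have hT2 : T ≤ N := by
      rw [hT]
      have : N / 6 ≤ N := Nat.div_le_self _ _
      exact_mod_cast this
    have hT0 : 0 ≤ T := by linarith
    have hγp : 0 < (N : ℝ) ^ γ := Real.rpow_pos_of_pos hN0 _
    have f1 : (2 * (N : ℝ) ^ γ) ^ (-θ) = (2 : ℝ) ^ (-θ) * (N : ℝ) ^ (-(θ * γ)) := by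
      rw [Real.mul_rpow (by norm_num) hγp.le, ← Real.rpow_mul hN0.le]
      congr 2
      ring
    have f2 : (2 * (N : ℝ) ^ γ) ^ (-2 : ℝ) ≤ (N : ℝ) ^ (-(2 * γ)) := by
      rw [Real.mul_rpow (by norm_num) hγp.le, ← Real.rpow_mul hN0.le]
      have e1 : (2 : ℝ) ^ (-2 : ℝ) ≤ 1 := by
        rw [Real.rpow_neg (by norm_num)]
        norm_num
      have e2 : (N : ℝ) ^ (γ * -2) = (N : ℝ) ^ (-(2 * γ)) := by
        congr 1
        ring
      rw [e2]
      have e3 : 0 ≤ (N : ℝ) ^ (-(2 * γ)) := Real.rpow_nonneg hN0.le _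
      nlinarith
    have g1 : K * 2 * (N : ℝ) ^ (1 - θ * γ) ≤ v0 * T * (2 * (N : ℝ) ^ γ) ^ (-θ) := by
      rw [f1]
      have e1 : (N : ℝ) ^ (1 - θ * γ) = N * (N : ℝ) ^ (-(θ * γ)) := by
        rw [← Real.rpow_one_add' hN0.le (by linarith)]
        congr 1
      rw [e1, hK]
      have e3 : 0 ≤ v0 * (2 : ℝ) ^ (-θ) * (N : ℝ) ^ (-(θ * γ)) := by positivity
      nlinarith [mul_le_mul_of_nonneg_left hT1 e3]
    have g2 : 200000 * (14803 / 100000) * T ^ (1 - (2 / 45 : ℝ)) *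
        (2 * (N : ℝ) ^ γ) ^ (-2 : ℝ) ≤
        200000 * (14803 / 100000) * (N : ℝ) ^ (-δ) * (N : ℝ) ^ (1 - θ * γ) := by
      have e1 : T ^ (1 - (2 / 45 : ℝ)) ≤ (N : ℝ) ^ (1 - (2 / 45 : ℝ)) :=
        Real.rpow_le_rpow hT0 hT2 (by norm_num)
      have e2 : (N : ℝ) ^ (1 - (2 / 45 : ℝ)) * (N : ℝ) ^ (-(2 * γ)) =
          (N : ℝ) ^ (-δ) * (N : ℝ) ^ (1 - θ * γ) := by
        rw [← Real.rpow_add hN0, ← Real.rpow_add hN0]
        congr 1
        rw [hδ]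
        ring
      have e3 : T ^ (1 - (2 / 45 : ℝ)) * (2 * (N : ℝ) ^ γ) ^ (-2 : ℝ) ≤
          (N : ℝ) ^ (1 - (2 / 45 : ℝ)) * (N : ℝ) ^ (-(2 * γ)) :=
        mul_le_mul e1 f2 (by positivity) (by positivity)
      rw [e2] at e3
      nlinarith
    have g3 : 200000 * (14803 / 100000) * (N : ℝ) ^ (-δ) * (N : ℝ) ^ (1 - θ * γ) ≤
        K * (N : ℝ) ^ (1 - θ * γ) :=
      mul_le_mul_of_nonneg_right hsmall.le hpow.le
    have g4 : min K (1 / M') * (N : ℝ) ^ (1 - θ * γ) ≤ K * (N : ℝ) ^ (1 - θ * γ) :=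
      mul_le_mul_of_nonneg_right (min_le_left _ _) hpow.le
    unfold H
    linarith

end Pool.Agent.H83.EX
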