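import Pool.Agent.H83.EX.Eig

/-!
Uniqueness of the exponent `θ*`.
-/

namespace Pool.Agent.H83.EX

lemma jen2_lt {x y s : ℝ} (hx : 0 < x) (hxy : x < y) (hs0 : 0 < s) (hs1 : s < 1) :
    (x ^ s + y ^ s) / 2 < ((x + y) / 2) ^ s := by
  have hy : 0 < y := by linarith
  have hm : 0 < (x + y) / 2 := by positivity
  have h1 := bern hm hy.le hs0.le hs1.le
  have hms : 0 < ((x + y) / 2) ^ s := Real.rpow_pos_of_pos hm s
  have h2 : x ^ s < ((x + y) / 2) ^ s * (1 + s * (x / ((x + y) / 2) - 1)) := by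
    have e1 : x = (x + y) / 2 * (1 + (x / ((x + y) / 2) - 1)) := by
      field_simp
      ring
    have e2 : -1 ≤ x / ((x + y) / 2) - 1 := by
      have : 0 ≤ x / ((x + y) / 2) := by positivity
      linarith
    have e3 : x / ((x + y) / 2) - 1 ≠ 0 := by
      have : x / ((x + y) / 2) < 1 := by
        rw [div_lt_one hm]
        linarith
      intro h
      linarith
    have e4 := rpow_one_add_lt_one_add_mul_self e2 e3 hs0 hs1
    calc x ^ s = ((x + y) / 2 * (1 + (x / ((x + y) / 2) - 1))) ^ s := by rw [← e1]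
      _ = ((x + y) / 2) ^ s * (1 + (x / ((x + y) / 2) - 1)) ^ s :=
          Real.mul_rpow hm.le (by linarith)
      _ < ((x + y) / 2) ^ s * (1 + s * (x / ((x + y) / 2) - 1)) :=
          mul_lt_mul_of_pos_left e4 hms
  have h3 : ((x + y) / 2) ^ s * (1 + s * (x / ((x + y) / 2) - 1)) +
      ((x + y) / 2) ^ s * (1 + s * (y / ((x + y) / 2) - 1)) = 2 * ((x + y) / 2) ^ s := by
    have h4 : x / ((x + y) / 2) + y / ((x + y) / 2) = 2 := by
      field_simp
    have h5 : ((x + y) / 2) ^ s * (1 + s * (x / ((x + y) / 2) - 1)) +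
      ((x + y) / 2) ^ s * (1 + s * (y / ((x + y) / 2) - 1)) =
      ((x + y) / 2) ^ s * (2 + s * ((x / ((x + y) / 2) + y / ((x + y) / 2)) - 2)) := by ring
    rw [h5, h4]
    ring
  linarith

/-- Two different exponents are impossible. -/
lemma not_lt_of_eqs {θ θ' : ℝ} {v w : Fin 6 → ℝ} (hθ : 0 < θ) (hθ' : 0 < θ')
    (hv : ∀ i, 0 < v i) (hw : ∀ i, 0 < w i) (h : Eqs θ v) (h' : Eqs θ' w) : ¬ θ < θ' := by
  intro hlt
  obtain ⟨h0, h1, h2, h3, h4, h5⟩ := h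
  obtain ⟨k0, k1, k2, k3, k4, k5⟩ := h'
  set s : ℝ := θ / θ' with hs
  have hs0 : 0 < s := by positivity
  have hs1 : s < 1 := by
    rw [hs, div_lt_one hθ']
    exact hlt
  have hsθ : θ' * s = θ := by
    rw [hs]
    field_simp
  have p2 : ((2 : ℝ) ^ (-θ')) ^ s = (2 : ℝ) ^ (-θ) := by
    rw [← Real.rpow_mul (by norm_num)]
    congr 1
    rw [neg_mul, hsθ]
  have p3 : ((3 : ℝ) ^ (-θ')) ^ s = (3 : ℝ) ^ (-θ) := by
    rw [← Real.rpow_mul (by norm_num)]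
    congr 1
    rw [neg_mul, hsθ]
  have p5 : ((5 : ℝ) ^ θ') ^ s = (5 : ℝ) ^ θ := by
    rw [← Real.rpow_mul (by norm_num), hsθ]
  have q2 : 0 < (2 : ℝ) ^ (-θ') := by positivity
  have q2' : (2 : ℝ) ^ (-θ') < 1 := Real.rpow_lt_one_of_one_lt_of_neg (by norm_num) (by linarith)
  have w03 : w 0 < w 3 := by
    have := hw 0
    have := hw 3
    nlinarith
  have g0 : (2 : ℝ) ^ (-θ) * (w 0 ^ s + w 3 ^ s) / 2 < w 0 ^ s := by
    have e1 := jen2_lt (hw 0) w03 hs0 hs1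
    have e2 : 0 < ((2 : ℝ) ^ (-θ')) ^ s := Real.rpow_pos_of_pos q2 s
    rw [← p2]
    have hpos : 0 < w 0 + w 3 := add_pos (hw 0) (hw 3)
    calc ((2 : ℝ) ^ (-θ')) ^ s * (w 0 ^ s + w 3 ^ s) / 2
        = ((2 : ℝ) ^ (-θ')) ^ s * ((w 0 ^ s + w 3 ^ s) / 2) := by ring
      _ < ((2 : ℝ) ^ (-θ')) ^ s * ((w 0 + w 3) / 2) ^ s := mul_lt_mul_of_pos_left e1 e2
      _ = ((2 : ℝ) ^ (-θ') * ((w 0 + w 3) / 2)) ^ s :=
          (Real.mul_rpow q2.le (by positivity)).symm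
      _ = w 0 ^ s := by
          congr 1
          linarith
  have g2 := hol2 q2 (hw 1) (hw 4) hs0.le hs1.le k2.ge
  have g4 := hol2 q2 (hw 2) (hw 5) hs0.le hs1.le k4.ge
  have g3 := hol3 (p := (3 : ℝ) ^ (-θ')) (by positivity) (hw 1) (hw 3) (hw 5) hs0.le hs1.le k3.ge
  have g1 : w 1 ^ s = (5 : ℝ) ^ θ * w 0 ^ s := by
    rw [k1, Real.mul_rpow (by positivity) (hw 0).le, p5]
  have g5 : w 5 ^ s = (5 : ℝ) ^ θ * w 2 ^ s := by
    rw [k5, Real.mul_rpow (by positivity) (hw 2).le, p5]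
  rw [p2] at g2 g4
  rw [p3] at g3
  have y : ∀ i, 0 < w i ^ s := fun i => Real.rpow_pos_of_pos (hw i) s
  have w0 := y 0
  have w1 := y 1
  have w2 := y 2
  have w3 := y 3
  have w4 := y 4
  have w5 := y 5
  clear p2 p3 p5 q2 q2' w03 k0 k1 k2 k3 k4 k5 y
  generalize w 0 ^ s = x0 at *
  generalize w 1 ^ s = x1 at *
  generalize w 2 ^ s = x2 at *
  generalize w 3 ^ s = x3 at *
  generalize w 4 ^ s = x4 at *
  generalize w 5 ^ s = x5 at *
  have a2 : 0 < (2 : ℝ) ^ (-θ) := by positivity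
  have a3 : 0 < (3 : ℝ) ^ (-θ) := by positivity
  have a5 : 0 < (5 : ℝ) ^ θ := by positivity
  set M := max (max (v 0 / x0) (v 2 / x2)) (max (v 3 / x3) (v 4 / x4)) with hM
  have M0 : v 0 ≤ M * x0 := by
    rw [← div_le_iff₀ w0]
    exact (le_max_left _ _).trans (le_max_left _ _)
  have M2 : v 2 ≤ M * x2 := by
    rw [← div_le_iff₀ w2]
    exact (le_max_right _ _).trans (le_max_left _ _)
  have M3 : v 3 ≤ M * x3 := by
    rw [← div_le_iff₀ w3]
    exact (le_max_left _ _).trans (le_max_right _ _)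
  have M4 : v 4 ≤ M * x4 := by
    rw [← div_le_iff₀ w4]
    exact (le_max_right _ _).trans (le_max_right _ _)
  have M5 : v 5 ≤ M * x5 := by
    rw [h5, g5]
    have := mul_le_mul_of_nonneg_left M2 a5.le
    linarith
  have Mpos : 0 < M := by
    have h6 : 0 < v 0 / x0 := div_pos (hv 0) w0
    have h7 : v 0 / x0 ≤ M := (le_max_left _ _).trans (le_max_left _ _)
    linarith
  have s0 : v 0 < M * x0 := by
    have e1 : (2 : ℝ) ^ (-θ) * (v 0 + v 3) ≤ (2 : ℝ) ^ (-θ) * (M * x0 + M * x3) :=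
      mul_le_mul_of_nonneg_left (add_le_add M0 M3) a2.le
    have e2 := mul_lt_mul_of_pos_left g0 Mpos
    linarith
  have s1 : v 1 < M * x1 := by
    rw [h1, g1]
    have := mul_lt_mul_of_pos_left s0 a5
    linarith
  have s2 : v 2 < M * x2 := by
    have e1 : (2 : ℝ) ^ (-θ) * (v 1 + v 4) < (2 : ℝ) ^ (-θ) * (M * x1 + M * x4) :=
      mul_lt_mul_of_pos_left (add_lt_add_of_lt_of_le s1 M4) a2
    have e2 := mul_le_mul_of_nonneg_left g2 Mpos.le
    linarith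
  have s4 : v 4 < M * x4 := by
    have e1 : (2 : ℝ) ^ (-θ) * (v 2 + v 5) < (2 : ℝ) ^ (-θ) * (M * x2 + M * x5) :=
      mul_lt_mul_of_pos_left (add_lt_add_of_lt_of_le s2 M5) a2
    have e2 := mul_le_mul_of_nonneg_left g4 Mpos.le
    linarith
  have s3 : v 3 < M * x3 := by
    have e1 : (3 : ℝ) ^ (-θ) * (v 1 + v 3 + v 5) < (3 : ℝ) ^ (-θ) * (M * x1 + M * x3 + M * x5) :=
      mul_lt_mul_of_pos_left (add_lt_add_of_lt_of_le (add_lt_add_of_lt_of_le s1 M3) M5) a3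
    have e2 := mul_le_mul_of_nonneg_left g3 Mpos.le
    linarith
  have hlt : M < M := by
    conv_lhs => rw [hM]
    refine max_lt (max_lt ?_ ?_) (max_lt ?_ ?_)
    · rw [div_lt_iff₀ w0]
      exact s0
    · rw [div_lt_iff₀ w2]
      exact s2
    · rw [div_lt_iff₀ w3]
      exact s3
    · rw [div_lt_iff₀ w4]
      exact s4
  exact lt_irrefl _ hlt

/-- The number `θ*` is unique. -/
lemma thetaStar_unique {θ θ' : ℝ} (h : IsThetaStar θ) (h' : IsThetaStar θ') : θ' = θ := by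
  obtain ⟨h0, v, hv, he⟩ := h
  obtain ⟨h0', w, hw, he'⟩ := h'
  refine le_antisymm ?_ ?_
  · exact not_lt.mp (not_lt_of_eqs h0 h0' hv hw (eqs_of he) (eqs_of he'))
  · exact not_lt.mp (not_lt_of_eqs h0' h0 hw hv (eqs_of he') (eqs_of he))

end Pool.Agent.H83.EX
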