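import Mathlib

/-!
Definitions for the frequency of large excursions of the Kakutani 5x+1 map.
-/

namespace Pool.Agent.H83.EX

/-- The Kakutani 5x+1 map. -/
def C (n : ℕ) : ℕ :=
  if n % 2 = 0 then n / 2 else if n % 3 = 0 then n / 3 else 5 * n + 1

/-- The maximum excursion, the supremum of the iterates, as an extended real. -/
noncomputable def t (n : ℕ) : EReal := ⨆ i : ℕ, ((C^[i] n : ℝ) : EReal)

/-- The transition matrix of the residues modulo 6. -/
noncomputable def P : Matrix (Fin 6) (Fin 6) ℝ :=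
  (1 / 6 : ℝ) • !![3, 0, 0, 3, 0, 0;
                   6, 0, 0, 0, 0, 0;
                   0, 3, 0, 0, 3, 0;
                   0, 2, 0, 2, 0, 2;
                   0, 0, 3, 0, 0, 3;
                   0, 0, 6, 0, 0, 0]

/-- The diagonal matrix of the powers of the growth factors. -/
noncomputable def F (θ : ℝ) : Matrix (Fin 6) (Fin 6) ℝ :=
  Matrix.diagonal ![(2 : ℝ) ^ (-θ), (5 : ℝ) ^ θ, (2 : ℝ) ^ (-θ), (3 : ℝ) ^ (-θ),
    (2 : ℝ) ^ (-θ), (5 : ℝ) ^ θ]

/-- `θ` is positive and the Perron root of the nonnegative matrix `F θ * P` is one: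
there is a positive eigenvector with eigenvalue one. -/
def IsThetaStar (θ : ℝ) : Prop :=
  0 < θ ∧ ∃ v : Fin 6 → ℝ, (∀ i, 0 < v i) ∧ (F θ * P).mulVec v = v

/-- Growth by the factor `L` along the trajectory of `n`. -/
def Big (L : ℝ) (n : ℕ) : Prop := ∃ i : ℕ, L * n ≤ (C^[i] n : ℝ)

open Classical in
/-- The number of `s < T` with growth by `L` from the starting value `A + 6 Q s`. -/
noncomputable def N (A Q : ℕ) (L : ℝ) (T : ℕ) : ℕ :=
  ((Finset.range T).filter (fun s => Big L (A + 6 * Q * s))).card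

end Pool.Agent.H83.EX
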