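import Pool.Agent.H83.EX.Rec

/-!
The lower bound for the counting function, by induction on the length of the progression.
-/

namespace Pool.Agent.H83.EX

open Finset

/-- The comparison function. -/
noncomputable def H (θ α β B v u L T : ℝ) : ℝ :=
  v * T * L ^ (-θ) - B * u * T ^ (1 - β) * L ^ (-α)

lemma H_add (θ α β B v u v' u' L T : ℝ) :
    H θ α β B (v + v') (u + u') L T = H θ α β B v u L T + H θ α β B v' u' L T := by
  unfold H
  ring

/-- The constants of the comparison argument; `v`, `u` are indexed by the residues modulo 6. -/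
structure Good (θ α β B η : ℝ) (v u : ℕ → ℝ) : Prop where
  hα : 0 ≤ α
  hαθ : α ≤ θ
  hβ0 : 0 ≤ β
  hβ : β < 1
  hB : 0 ≤ B
  hBη : 2 ≤ B * η
  vpos : ∀ r, r < 6 → 0 < v r
  vle : ∀ r, r < 6 → v r * (5 : ℝ) ^ θ ≤ 1
  upos : ∀ r, r < 6 → 0 < u r
  v0 : v 0 = (2 : ℝ) ^ (-θ) * (v 0 + v 3) / 2
  v1 : v 1 = (5 : ℝ) ^ θ * v 0
  v2 : v 2 = (2 : ℝ) ^ (-θ) * (v 1 + v 4) / 2
  v3 : v 3 = (3 : ℝ) ^ (-θ) * (v 1 + v 3 + v 5) / 3
  v4 : v 4 = (2 : ℝ) ^ (-θ) * (v 2 + v 5) / 2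
  v5 : v 5 = (5 : ℝ) ^ θ * v 2
  u0 : (2 : ℝ) ^ (β - α) * (u 0 + u 3) / 2 + η ≤ u 0
  u1 : (5 : ℝ) ^ α * u 0 ≤ u 1
  u2 : (2 : ℝ) ^ (β - α) * (u 1 + u 4) / 2 + η ≤ u 2
  u3 : (3 : ℝ) ^ (β - α) * (u 1 + u 3 + u 5) / 3 + η ≤ u 3
  u4 : (2 : ℝ) ^ (β - α) * (u 2 + u 5) / 2 + η ≤ u 4
  u5 : (5 : ℝ) ^ α * u 2 ≤ u 5

lemma step {θ α β B η : ℝ} (hαθ : α ≤ θ) (hβ0 : 0 ≤ β) (hβ : β < 1)
    (hB : 0 ≤ B) (hBη : 2 ≤ B * η) {k T : ℕ} (hk : k = 2 ∨ k = 3) (hT : 1 ≤ T) {L : ℝ}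
    (hL : 1 ≤ L) {v u VS US : ℝ} (hv0 : 0 ≤ v) (hv1 : v ≤ 1) (hUS : 0 ≤ US)
    (hv : v = (k : ℝ) ^ (-θ) * VS / k) (hu : (k : ℝ) ^ (β - α) * US / k + η ≤ u) :
    H θ α β B v u L T ≤ H θ α β B VS US (k * L) ((T / k : ℕ) : ℝ) := by
  have hk2 : (2 : ℝ) ≤ k := by
    rcases hk with h | h <;> rw [h] <;> norm_num
  have hk3 : (k : ℝ) ≤ 3 := by
    rcases hk with h | h <;> rw [h] <;> norm_num
  have hk0 : (0 : ℝ) < k := by linarith
  have hknat : 0 < k := by omega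
  have hL0 : (0 : ℝ) < L := by linarith
  have hT1 : (1 : ℝ) ≤ T := by exact_mod_cast hT
  set m : ℕ := T / k with hm
  have hmod : T % k < k := Nat.mod_lt _ hknat
  have hdiv : k * m + T % k = T := Nat.div_add_mod T k
  have hm1 : (T : ℝ) - (k - 1) ≤ k * m := by
    have h1 : T + 1 ≤ k * m + k := by omega
    have h2 : ((T + 1 : ℕ) : ℝ) ≤ ((k * m + k : ℕ) : ℝ) := by exact_mod_cast h1
    push_cast at h2
    linarith
  have hm2 : (m : ℝ) ≤ T / k := by
    rw [le_div_iff₀ hk0]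
    have h1 : m * k ≤ T := by rw [Nat.mul_comm]; omega
    exact_mod_cast h1
  have hm0 : (0 : ℝ) ≤ m := Nat.cast_nonneg m
  have hx : 0 < L ^ (-θ) := Real.rpow_pos_of_pos hL0 _
  have hy : 0 < L ^ (-α) := Real.rpow_pos_of_pos hL0 _
  have hxy : L ^ (-θ) ≤ L ^ (-α) := Real.rpow_le_rpow_of_exponent_le hL (by linarith)
  have e1 : ((k : ℝ) * L) ^ (-θ) = (k : ℝ) ^ (-θ) * L ^ (-θ) :=
    Real.mul_rpow hk0.le hL0.le
  have e2 : ((k : ℝ) * L) ^ (-α) = (k : ℝ) ^ (-α) * L ^ (-α) :=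
    Real.mul_rpow hk0.le hL0.le
  have hTp : 1 ≤ (T : ℝ) ^ (1 - β) := Real.one_le_rpow hT1 (by linarith)
  -- first part
  have p1 : v * T * L ^ (-θ) - 2 * L ^ (-α) ≤ VS * m * ((k : ℝ) ^ (-θ) * L ^ (-θ)) := by
    have h1 : VS * m * ((k : ℝ) ^ (-θ) * L ^ (-θ)) = v * (k * m) * L ^ (-θ) := by
      rw [hv]
      field_simp
    rw [h1]
    have h2 : v * (T - (k - 1)) * L ^ (-θ) ≤ v * (k * m) * L ^ (-θ) := by
      have := mul_le_mul_of_nonneg_left hm1 hv0
      exact mul_le_mul_of_nonneg_right this hx.le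
    have h3 : v * (k - 1) * L ^ (-θ) ≤ 2 * L ^ (-α) := by
      have h4 : v * (k - 1) ≤ 2 := by nlinarith
      have h5 : 0 ≤ v * ((k : ℝ) - 1) := mul_nonneg hv0 (by linarith)
      calc v * (k - 1) * L ^ (-θ) ≤ v * (k - 1) * L ^ (-α) :=
            mul_le_mul_of_nonneg_left hxy h5
        _ ≤ 2 * L ^ (-α) := mul_le_mul_of_nonneg_right h4 hy.le
    nlinarith
  -- second part
  have p2 : B * US * (m : ℝ) ^ (1 - β) * ((k : ℝ) ^ (-α) * L ^ (-α)) ≤
      B * (u - η) * (T : ℝ) ^ (1 - β) * L ^ (-α) := by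
    have h1 : (m : ℝ) ^ (1 - β) ≤ (T : ℝ) ^ (1 - β) * (k : ℝ) ^ (β - 1) := by
      have h2 : (m : ℝ) ^ (1 - β) ≤ ((T : ℝ) / k) ^ (1 - β) :=
        Real.rpow_le_rpow hm0 hm2 (by linarith)
      rw [Real.div_rpow (by linarith) hk0.le] at h2
      have h3 : (k : ℝ) ^ (β - 1) = ((k : ℝ) ^ (1 - β))⁻¹ := by
        rw [← Real.rpow_neg hk0.le]
        congr 1
        ring
      rw [h3]
      exact h2
    have h4 : (k : ℝ) ^ (β - 1) * (k : ℝ) ^ (-α) = (k : ℝ) ^ (β - α) / k := by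
      rw [← Real.rpow_add hk0, ← Real.rpow_sub_one hk0.ne']
      congr 1
      ring
    have h5 : 0 ≤ B * US := mul_nonneg hB hUS
    have h6 : 0 < (k : ℝ) ^ (-α) := Real.rpow_pos_of_pos hk0 _
    calc B * US * (m : ℝ) ^ (1 - β) * ((k : ℝ) ^ (-α) * L ^ (-α))
        ≤ B * US * ((T : ℝ) ^ (1 - β) * (k : ℝ) ^ (β - 1)) * ((k : ℝ) ^ (-α) * L ^ (-α)) := by
          have := mul_le_mul_of_nonneg_left h1 h5
          exact mul_le_mul_of_nonneg_right this (by positivity)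
      _ = B * (((k : ℝ) ^ (β - 1) * (k : ℝ) ^ (-α)) * US) * (T : ℝ) ^ (1 - β) * L ^ (-α) := by
          ring
      _ = B * ((k : ℝ) ^ (β - α) * US / k) * (T : ℝ) ^ (1 - β) * L ^ (-α) := by
          rw [h4]
          ring
      _ ≤ B * (u - η) * (T : ℝ) ^ (1 - β) * L ^ (-α) := by
          have h7 : (k : ℝ) ^ (β - α) * US / k ≤ u - η := by linarith
          have h8 := mul_le_mul_of_nonneg_left h7 hB
          have h9 : 0 ≤ (T : ℝ) ^ (1 - β) := by linarith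
          exact mul_le_mul_of_nonneg_right (mul_le_mul_of_nonneg_right h8 h9) hy.le
  have p3 : 2 * L ^ (-α) ≤ B * η * (T : ℝ) ^ (1 - β) * L ^ (-α) := by
    have h1 : 2 ≤ B * η * (T : ℝ) ^ (1 - β) := by nlinarith
    exact mul_le_mul_of_nonneg_right h1 hy.le
  unfold H
  rw [e1, e2]
  have e3 : B * (u - η) * (T : ℝ) ^ (1 - β) * L ^ (-α) =
      B * u * (T : ℝ) ^ (1 - β) * L ^ (-α) - B * η * (T : ℝ) ^ (1 - β) * L ^ (-α) := by ring
  rw [e3] at p2
  linarith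

lemma H_zero {θ α β B v u L : ℝ} (hβ : β < 1) : H θ α β B v u L 0 = 0 := by
  unfold H
  rw [Real.zero_rpow (by linarith)]
  ring

lemma H_le {θ α β B v u L T : ℝ} (hB : 0 ≤ B) (hu : 0 ≤ u) (hT : 0 ≤ T) (hL : 1 / 5 ≤ L)
    (hθ : 0 ≤ θ) (hv : 0 ≤ v) (hv5 : v * (5 : ℝ) ^ θ ≤ 1) : H θ α β B v u L T ≤ T := by
  have hL0 : 0 < L := by linarith
  have h1 : 0 ≤ B * u * T ^ (1 - β) * L ^ (-α) := by positivity
  have h2 : L ^ (-θ) ≤ (5 : ℝ) ^ θ := by
    rw [Real.rpow_neg hL0.le, ← Real.inv_rpow hL0.le]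
    refine Real.rpow_le_rpow (by positivity) ?_ hθ
    rw [inv_le_comm₀ hL0 (by norm_num)]
    linarith
  have h3 : v * T * L ^ (-θ) ≤ T := by
    calc v * T * L ^ (-θ) ≤ v * T * (5 : ℝ) ^ θ :=
          mul_le_mul_of_nonneg_left h2 (mul_nonneg hv hT)
      _ = (v * (5 : ℝ) ^ θ) * T := by ring
      _ ≤ 1 * T := mul_le_mul_of_nonneg_right hv5 hT
      _ = T := one_mul T
  unfold H
  linarith

lemma three_cases (A Q : ℕ) (hA : A % 6 = 3) (hQ2 : Q % 2 = 1) (hQ3 : Q % 3 ≠ 0) :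
    ((A / 3) % 6 = 1 ∧ (A / 3 + 2 * Q) % 6 = 3 ∧ (A / 3 + 4 * Q) % 6 = 5) ∨
      ((A / 3) % 6 = 1 ∧ (A / 3 + 2 * Q) % 6 = 5 ∧ (A / 3 + 4 * Q) % 6 = 3) ∨
      ((A / 3) % 6 = 3 ∧ (A / 3 + 2 * Q) % 6 = 1 ∧ (A / 3 + 4 * Q) % 6 = 5) ∨
      ((A / 3) % 6 = 3 ∧ (A / 3 + 2 * Q) % 6 = 5 ∧ (A / 3 + 4 * Q) % 6 = 1) ∨
      ((A / 3) % 6 = 5 ∧ (A / 3 + 2 * Q) % 6 = 1 ∧ (A / 3 + 4 * Q) % 6 = 3) ∨
      ((A / 3) % 6 = 5 ∧ (A / 3 + 2 * Q) % 6 = 3 ∧ (A / 3 + 4 * Q) % 6 = 1) := by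
  have h1 : (A / 3) % 6 = 1 ∨ (A / 3) % 6 = 3 ∨ (A / 3) % 6 = 5 := by omega
  have h2 : Q % 6 = 1 ∨ Q % 6 = 5 := by omega
  have e2 : (A / 3 + 2 * Q) % 6 = ((A / 3) % 6 + 2 * (Q % 6)) % 6 := by omega
  have e3 : (A / 3 + 4 * Q) % 6 = ((A / 3) % 6 + 4 * (Q % 6)) % 6 := by omega
  rw [e2, e3]
  rcases h1 with h | h | h <;> rcases h2 with h' | h' <;> rw [h, h'] <;> norm_num

theorem main {θ α β B η : ℝ} {v u : ℕ → ℝ} (hG : Good θ α β B η v u) :
    ∀ (T A Q : ℕ) (L : ℝ), Q % 2 = 1 → Q % 3 ≠ 0 → 1 / 5 ≤ L →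
      H θ α β B (v (A % 6)) (u (A % 6)) L T ≤ N A Q L T := by
  have hθ : 0 ≤ θ := hG.hα.trans hG.hαθ
  have h5θ : 1 ≤ (5 : ℝ) ^ θ := Real.one_le_rpow (by norm_num) hθ
  have vle1 : ∀ r, r < 6 → v r ≤ 1 := by
    intro r hr
    have h1 := hG.vle r hr
    have h2 := hG.vpos r hr
    nlinarith
  have base : ∀ (T A Q : ℕ) (L : ℝ), 1 / 5 ≤ L → L ≤ 1 →
      H θ α β B (v (A % 6)) (u (A % 6)) L T ≤ N A Q L T := by
    intro T A Q L h1 h2
    rw [N_all A Q L h2 T]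
    have hr : A % 6 < 6 := Nat.mod_lt _ (by norm_num)
    exact H_le hG.hB (hG.upos _ hr).le (Nat.cast_nonneg T) h1 hθ (hG.vpos _ hr).le (hG.vle _ hr)
  intro T
  induction T using Nat.strong_induction_on with
  | _ T ih =>
    rcases Nat.eq_zero_or_pos T with hT | hT
    · subst hT
      intro A Q L _ _ _
      rw [Nat.cast_zero, H_zero hG.hβ]
      exact Nat.cast_nonneg _
    · have key : ∀ (A Q : ℕ) (L : ℝ), Q % 2 = 1 → Q % 3 ≠ 0 → 1 ≤ L →
          A % 6 ≠ 1 → A % 6 ≠ 5 → H θ α β B (v (A % 6)) (u (A % 6)) L T ≤ N A Q L T := by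
        intro A Q L hQ2 hQ3 hL h1 h5
        have hr : A % 6 < 6 := Nat.mod_lt _ (by norm_num)
        have hT2 : T / 2 < T := Nat.div_lt_self hT (by norm_num)
        have hT3 : T / 3 < T := Nat.div_lt_self hT (by norm_num)
        have hcase : A % 6 = 0 ∨ A % 6 = 2 ∨ A % 6 = 3 ∨ A % 6 = 4 := by omega
        have ev : A % 2 = 0 → ∀ i j : ℕ, ((A / 2) % 6 = i ∧ (A / 2 + 3 * Q) % 6 = j ∨
            (A / 2) % 6 = j ∧ (A / 2 + 3 * Q) % 6 = i) → i < 6 → j < 6 →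
            v (A % 6) = (2 : ℝ) ^ (-θ) * (v i + v j) / 2 →
            (2 : ℝ) ^ (β - α) * (u i + u j) / 2 + η ≤ u (A % 6) →
            H θ α β B (v (A % 6)) (u (A % 6)) L T ≤ N A Q L T := by
          intro hA2 i j hij hi hj hv hu
          have hn := N_even A Q L T hA2
          have hnr : (N (A / 2) Q (2 * L) (T / 2) : ℝ) +
              (N (A / 2 + 3 * Q) Q (2 * L) (T / 2) : ℝ) ≤ (N A Q L T : ℝ) := by
            exact_mod_cast hn
          have i1 := ih (T / 2) hT2 (A / 2) Q (2 * L) hQ2 hQ3 (by linarith)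
          have i2 := ih (T / 2) hT2 (A / 2 + 3 * Q) Q (2 * L) hQ2 hQ3 (by linarith)
          have hst := step (k := 2) (T := T) (v := v (A % 6)) (u := u (A % 6))
            (VS := v i + v j) (US := u i + u j) hG.hαθ hG.hβ0 hG.hβ hG.hB hG.hBη
            (Or.inl rfl) hT hL (hG.vpos _ hr).le (vle1 _ hr)
            (add_nonneg (hG.upos i hi).le (hG.upos j hj).le)
            (by push_cast; exact hv) (by push_cast; exact hu)
          rw [H_add] at hst
          push_cast at hst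
          rcases hij with ⟨e1, e2⟩ | ⟨e1, e2⟩
          · rw [e1] at i1
            rw [e2] at i2
            push_cast at i1 i2
            linarith
          · rw [e1] at i1
            rw [e2] at i2
            push_cast at i1 i2
            linarith
        rcases hcase with h | h | h | h
        · refine ev (by omega) 0 3 (by omega) (by norm_num) (by norm_num) ?_ ?_
          · rw [h]; exact hG.v0
          · rw [h]; exact hG.u0
        · refine ev (by omega) 1 4 (by omega) (by norm_num) (by norm_num) ?_ ?_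
          · rw [h]; exact hG.v2
          · rw [h]; exact hG.u2
        · have hn := N_three A Q L T h
          have hnr : (N (A / 3) Q (3 * L) (T / 3) : ℝ) +
              (N (A / 3 + 2 * Q) Q (3 * L) (T / 3) : ℝ) +
              (N (A / 3 + 4 * Q) Q (3 * L) (T / 3) : ℝ) ≤ (N A Q L T : ℝ) := by
            exact_mod_cast hn
          have i1 := ih (T / 3) hT3 (A / 3) Q (3 * L) hQ2 hQ3 (by linarith)
          have i2 := ih (T / 3) hT3 (A / 3 + 2 * Q) Q (3 * L) hQ2 hQ3 (by linarith)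
          have i3 := ih (T / 3) hT3 (A / 3 + 4 * Q) Q (3 * L) hQ2 hQ3 (by linarith)
          have hst := step (k := 3) (T := T) (v := v (A % 6)) (u := u (A % 6))
            (VS := v 1 + v 3 + v 5) (US := u 1 + u 3 + u 5) hG.hαθ hG.hβ0 hG.hβ hG.hB hG.hBη
            (Or.inr rfl) hT hL (hG.vpos _ hr).le (vle1 _ hr)
            (add_nonneg (add_nonneg (hG.upos 1 (by norm_num)).le (hG.upos 3 (by norm_num)).le)
              (hG.upos 5 (by norm_num)).le)
            (by push_cast; rw [h]; exact hG.v3) (by push_cast; rw [h]; exact hG.u3)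
          rw [H_add, H_add] at hst
          push_cast at hst
          have hc := three_cases A Q h hQ2 hQ3
          rcases hc with ⟨e1, e2, e3⟩ | ⟨e1, e2, e3⟩ | ⟨e1, e2, e3⟩ | ⟨e1, e2, e3⟩ |
            ⟨e1, e2, e3⟩ | ⟨e1, e2, e3⟩ <;>
          · rw [e1] at i1
            rw [e2] at i2
            rw [e3] at i3
            push_cast at i1 i2 i3
            linarith
        · refine ev (by omega) 2 5 (by omega) (by norm_num) (by norm_num) ?_ ?_
          · rw [h]; exact hG.v4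
          · rw [h]; exact hG.u4
      intro A Q L hQ2 hQ3 hL
      rcases le_total L 1 with hL1 | hL1
      · exact base T A Q L hL hL1
      · have low : ∀ (A' Q' : ℕ) (L' : ℝ), Q' % 2 = 1 → Q' % 3 ≠ 0 → 1 / 5 ≤ L' →
            A' % 6 ≠ 1 → A' % 6 ≠ 5 →
            H θ α β B (v (A' % 6)) (u (A' % 6)) L' T ≤ N A' Q' L' T := by
          intro A' Q' L' g1 g2 g3 g4 g5
          rcases le_total L' 1 with g6 | g6
          · exact base T A' Q' L' g3 g6
          · exact key A' Q' L' g1 g2 g6 g4 g5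
        have hL0 : 0 < L := by linarith
        have conv : ∀ v' u' v'' u'' : ℝ, v'' = (5 : ℝ) ^ θ * v' → (5 : ℝ) ^ α * u' ≤ u'' →
            H θ α β B v'' u'' L T ≤ H θ α β B v' u' (L / 5) T := by
          intro v' u' v'' u'' h1 h2
          unfold H
          have e1 : (L / 5) ^ (-θ) = (5 : ℝ) ^ θ * L ^ (-θ) := by
            rw [Real.div_rpow hL0.le (by norm_num), Real.rpow_neg (by norm_num : (0 : ℝ) ≤ 5)]
            field_simp
          have e2 : (L / 5) ^ (-α) = (5 : ℝ) ^ α * L ^ (-α) := by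
            rw [Real.div_rpow hL0.le (by norm_num), Real.rpow_neg (by norm_num : (0 : ℝ) ≤ 5)]
            field_simp
          rw [e1, e2, h1]
          have h3 : 0 ≤ B * (T : ℝ) ^ (1 - β) * L ^ (-α) := by
            have := hG.hB
            positivity
          have h4 := mul_le_mul_of_nonneg_left h2 h3
          nlinarith
        by_cases h1 : A % 6 = 1
        · have hn := N_five A Q L hL0.le T (Or.inl h1)
          have hnr : (N (5 * A + 1) (5 * Q) (L / 5) T : ℝ) ≤ (N A Q L T : ℝ) := by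
            exact_mod_cast hn
          have e : (5 * A + 1) % 6 = 0 := by omega
          have i1 := low (5 * A + 1) (5 * Q) (L / 5) (by omega) (by omega) (by linarith)
            (by omega) (by omega)
          rw [e] at i1
          rw [h1]
          exact ((conv _ _ _ _ hG.v1 hG.u1).trans i1).trans hnr
        · by_cases h5 : A % 6 = 5
          · have hn := N_five A Q L hL0.le T (Or.inr h5)
            have hnr : (N (5 * A + 1) (5 * Q) (L / 5) T : ℝ) ≤ (N A Q L T : ℝ) := by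
              exact_mod_cast hn
            have e : (5 * A + 1) % 6 = 2 := by omega
            have i1 := low (5 * A + 1) (5 * Q) (L / 5) (by omega) (by omega) (by linarith)
              (by omega) (by omega)
            rw [e] at i1
            rw [h5]
            exact ((conv _ _ _ _ hG.v5 hG.u5).trans i1).trans hnr
          · exact key A Q L hQ2 hQ3 hL1 h1 h5

end Pool.Agent.H83.EX
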