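import Pool.Agent.H83.EX.Defs

/-!
The recursion for the counting function on arithmetic progressions.
-/

namespace Pool.Agent.H83.EX

open Finset

lemma big_of_le_one {L : ℝ} (h : L ≤ 1) (n : ℕ) : Big L n := by
  refine ⟨0, ?_⟩
  simp only [Function.iterate_zero, id_eq]
  have : (0 : ℝ) ≤ n := Nat.cast_nonneg n
  nlinarith

lemma big_step {L L' : ℝ} {n m : ℕ} (hC : C n = m) (h : L * n ≤ L' * m) (hb : Big L' m) :
    Big L n := by
  obtain ⟨i, hi⟩ := hb
  refine ⟨i + 1, ?_⟩
  rw [Function.iterate_succ_apply, hC]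
  exact h.trans hi

lemma big_even {L : ℝ} {n m : ℕ} (hn : n = 2 * m) (hb : Big (2 * L) m) : Big L n := by
  have hC : C n = m := by
    unfold C
    rw [if_pos (by omega)]
    omega
  refine big_step hC ?_ hb
  subst hn
  push_cast
  nlinarith

lemma big_three {L : ℝ} {n m : ℕ} (hn : n = 3 * m) (hodd : n % 2 = 1) (hb : Big (3 * L) m) :
    Big L n := by
  have hC : C n = m := by
    unfold C
    rw [if_neg (by omega), if_pos (by omega)]
    omega
  refine big_step hC ?_ hb
  subst hn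
  push_cast
  nlinarith

lemma big_five {L : ℝ} (hL : 0 ≤ L) {n m : ℕ} (hn : m = 5 * n + 1) (h2 : n % 2 = 1)
    (h3 : n % 3 ≠ 0) (hb : Big (L / 5) m) : Big L n := by
  have hC : C n = m := by
    unfold C
    rw [if_neg (by omega), if_neg h3, hn]
  refine big_step hC ?_ hb
  subst hn
  push_cast
  nlinarith

lemma card_split (k T : ℕ) (hk : 0 < k) (p : ℕ → ℕ → Prop) (q : ℕ → Prop)
    [∀ j, DecidablePred (p j)] [DecidablePred q]
    (h : ∀ j, j < k → ∀ s, p j s → q (k * s + j)) :
    ∑ j ∈ range k, ((range (T / k)).filter (p j)).card ≤ ((range T).filter q).card := by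
  rw [← Finset.card_sigma]
  refine Finset.card_le_card_of_injOn (fun x => k * x.2 + x.1) ?_ ?_
  · intro x hx
    simp only [Finset.coe_sigma, Finset.mem_coe, Finset.coe_range, Set.mem_sigma_iff, Set.mem_Iio,
      Finset.mem_filter, Finset.mem_range, Finset.coe_filter, Set.mem_setOf_eq] at hx ⊢
    obtain ⟨h1, h2, h3⟩ := hx
    refine ⟨?_, h _ h1 _ h3⟩
    have h4 : x.2 + 1 ≤ T / k := h2
    have h5 : k * (x.2 + 1) ≤ T := by
      calc k * (x.2 + 1) ≤ k * (T / k) := Nat.mul_le_mul_left k h4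
        _ ≤ T := Nat.mul_div_le T k
    have h6 : k * (x.2 + 1) = k * x.2 + k := by ring
    omega
  · intro x hx y hy hxy
    simp only [Finset.coe_sigma, Finset.mem_coe, Finset.coe_range, Set.mem_sigma_iff, Set.mem_Iio,
      Finset.coe_filter, Set.mem_setOf_eq] at hx hy
    simp only at hxy
    have e1 : (k * x.2 + x.1) % k = x.1 := by
      rw [Nat.mul_add_mod]
      exact Nat.mod_eq_of_lt hx.1
    have e2 : (k * y.2 + y.1) % k = y.1 := by
      rw [Nat.mul_add_mod]
      exact Nat.mod_eq_of_lt hy.1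
    have e3 : (k * x.2 + x.1) / k = x.2 := by
      rw [Nat.mul_add_div hk]
      rw [Nat.div_eq_of_lt hx.1]
      simp
    have e4 : (k * y.2 + y.1) / k = y.2 := by
      rw [Nat.mul_add_div hk]
      rw [Nat.div_eq_of_lt hy.1]
      simp
    have h1 : x.1 = y.1 := by rw [← e1, ← e2, hxy]
    have h2 : x.2 = y.2 := by rw [← e3, ← e4, hxy]
    cases x
    cases y
    simp_all

lemma N_even (A Q : ℕ) (L : ℝ) (T : ℕ) (hA : A % 2 = 0) :
    N (A / 2) Q (2 * L) (T / 2) + N (A / 2 + 3 * Q) Q (2 * L) (T / 2) ≤ N A Q L T := by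
  classical
  have h := card_split 2 T (by norm_num)
    (fun j s => Big (2 * L) (A / 2 + 3 * Q * j + 6 * Q * s)) (fun s => Big L (A + 6 * Q * s))
    (by
      intro j hj s hb
      refine big_even ?_ hb
      have : A = 2 * (A / 2) := by omega
      calc A + 6 * Q * (2 * s + j) = 2 * (A / 2) + 6 * Q * (2 * s + j) := by rw [← this]
        _ = 2 * (A / 2 + 3 * Q * j + 6 * Q * s) := by ring)
  rw [Finset.sum_range_succ, Finset.sum_range_one] at h
  simp only [Nat.mul_zero, Nat.add_zero, Nat.mul_one] at h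
  unfold N
  refine le_trans (le_of_eq ?_) (h.trans (le_of_eq ?_))
  · rfl
  · rfl

lemma N_three (A Q : ℕ) (L : ℝ) (T : ℕ) (hA : A % 6 = 3) :
    N (A / 3) Q (3 * L) (T / 3) + N (A / 3 + 2 * Q) Q (3 * L) (T / 3) +
      N (A / 3 + 4 * Q) Q (3 * L) (T / 3) ≤ N A Q L T := by
  classical
  have h := card_split 3 T (by norm_num)
    (fun j s => Big (3 * L) (A / 3 + 2 * Q * j + 6 * Q * s)) (fun s => Big L (A + 6 * Q * s))
    (by
      intro j hj s hb
      refine big_three ?_ ?_ hb
      · have : A = 3 * (A / 3) := by omega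
        calc A + 6 * Q * (3 * s + j) = 3 * (A / 3) + 6 * Q * (3 * s + j) := by rw [← this]
          _ = 3 * (A / 3 + 2 * Q * j + 6 * Q * s) := by ring
      · have : A + 6 * Q * (3 * s + j) = A + 2 * (3 * Q * (3 * s + j)) := by ring
        rw [this]
        omega)
  rw [Finset.sum_range_succ, Finset.sum_range_succ, Finset.sum_range_one] at h
  have e : ∀ x : ℕ, 2 * x * 2 = 4 * x := fun x => by ring
  simp only [Nat.mul_zero, Nat.add_zero, Nat.mul_one, e] at h
  unfold N
  refine le_trans (le_of_eq ?_) (h.trans (le_of_eq ?_))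
  · rfl
  · rfl

lemma N_five (A Q : ℕ) (L : ℝ) (hL : 0 ≤ L) (T : ℕ) (hA : A % 6 = 1 ∨ A % 6 = 5) :
    N (5 * A + 1) (5 * Q) (L / 5) T ≤ N A Q L T := by
  classical
  unfold N
  refine Finset.card_le_card ?_
  intro s hs
  rw [Finset.mem_filter] at hs ⊢
  refine ⟨hs.1, big_five hL (m := 5 * A + 1 + 6 * (5 * Q) * s) (by ring) ?_ ?_ hs.2⟩
  · have : A + 6 * Q * s = A + 2 * (3 * Q * s) := by ring
    rw [this]
    omega
  · have : A + 6 * Q * s = A + 3 * (2 * Q * s) := by ring
    rw [this]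
    omega

lemma N_all (A Q : ℕ) (L : ℝ) (hL : L ≤ 1) (T : ℕ) : N A Q L T = T := by
  classical
  unfold N
  rw [Finset.filter_true_of_mem (fun s _ => big_of_le_one hL _)]
  exact Finset.card_range T

end Pool.Agent.H83.EX
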